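import Mathlib

/-!
Generating functions for weighted sums over non-increasing tuples.
-/

namespace Pool.Agent.V11301.TG

open Finset PowerSeries

/-- entry `i` of a tuple, zero beyond its length -/
def ext {n : ℕ} (l : Fin n → ℕ) (i : ℕ) : ℕ := if h : i < n then l ⟨i, h⟩ else 0

theorem ext_cons_zero {n : ℕ} (a : ℕ) (x : Fin n → ℕ) : ext (Fin.cons a x : Fin (n + 1) → ℕ) 0 = a := by
  unfold ext
  rw [dif_pos (Nat.succ_pos n)]
  rfl

theorem ext_cons_succ {n : ℕ} (a : ℕ) (x : Fin n → ℕ) (i : ℕ) :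
    ext (Fin.cons a x : Fin (n + 1) → ℕ) (i + 1) = ext x i := by
  unfold ext
  by_cases h : i < n
  · rw [dif_pos h, dif_pos (Nat.succ_lt_succ h)]
    rfl
  · rw [dif_neg h, dif_neg (fun h' => h (Nat.lt_of_succ_lt_succ h'))]

/-- the product of binomials and weights -/
def P (N : ℕ) (r : ℕ → ℚ) (x : Fin N → ℕ) : ℚ :=
  ∏ i ∈ range N, (((ext x i).choose (ext x (i + 1)) : ℕ) : ℚ) * r i ^ ext x i

theorem P_cons (N : ℕ) (r : ℕ → ℚ) (a : ℕ) (x : Fin N → ℕ) :
    P (N + 1) r (Fin.cons a x) =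
      ((a.choose (ext x 0) : ℕ) : ℚ) * r 0 ^ a * P N (fun i => r (i + 1)) x := by
  unfold P
  rw [prod_range_succ', mul_comm]
  congr 1
  · rw [ext_cons_zero, ext_cons_succ]
  · apply prod_congr rfl
    intro i _
    rw [ext_cons_succ, ext_cons_succ]

theorem sum_tuple_succ (N s : ℕ) (f : (Fin (N + 1) → ℕ) → ℚ) :
    ∑ l ∈ Nat.antidiagonalTuple (N + 1) s, f l =
      ∑ p ∈ antidiagonal s, ∑ x ∈ Nat.antidiagonalTuple N p.2, f (Fin.cons p.1 x) := by
  rw [Finset.sum_sigma']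
  refine Finset.sum_bij' (fun l _ => ⟨(l 0, ∑ i, Fin.tail l i), Fin.tail l⟩)
    (fun q _ => Fin.cons q.1.1 q.2) ?_ ?_ ?_ ?_ ?_
  · intro l hl
    rw [Nat.mem_antidiagonalTuple, Fin.sum_univ_succ] at hl
    rw [Finset.mem_sigma, HasAntidiagonal.mem_antidiagonal, Nat.mem_antidiagonalTuple]
    exact ⟨hl, rfl⟩
  · rintro ⟨⟨a, b⟩, x⟩ hq
    rw [Finset.mem_sigma, HasAntidiagonal.mem_antidiagonal, Nat.mem_antidiagonalTuple] at hq
    rw [Nat.mem_antidiagonalTuple, Fin.sum_univ_succ]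
    simp only [Fin.cons_zero, Fin.cons_succ]
    obtain ⟨h1, h2⟩ := hq
    simp only at h1 h2
    omega
  · intro l _
    exact Fin.cons_self_tail l
  · rintro ⟨⟨a, b⟩, x⟩ hq
    rw [Finset.mem_sigma, HasAntidiagonal.mem_antidiagonal, Nat.mem_antidiagonalTuple] at hq
    obtain ⟨h1, h2⟩ := hq
    simp only at h1 h2
    subst h2
    simp [Fin.tail_cons]
  · intro l _
    rw [Fin.cons_self_tail]

/-- truncated generating function -/
noncomputable def Q : ℕ → (ℕ → ℚ) → ℚ⟦X⟧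
  | 0, _ => 0
  | N + 1, r => C (r 0) * X * (1 + Q N (fun i => r (i + 1)))

theorem tail_sum (N : ℕ) : ∀ (r : ℕ → ℚ) (a s : ℕ),
    ∑ x ∈ Nat.antidiagonalTuple N s, ((a.choose (ext x 0) : ℕ) : ℚ) * P N r x =
      coeff s ((1 + Q N r) ^ a) := by
  induction N with
  | zero =>
    intro r a s
    have hQ : (1 + Q 0 r) ^ a = (1 : ℚ⟦X⟧) := by simp [Q]
    rw [hQ]
    cases s with
    | zero =>
      rw [Nat.antidiagonalTuple_zero_zero, sum_singleton]
      simp [ext, P]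
    | succ s =>
      rw [Nat.antidiagonalTuple_zero_succ, sum_empty]
      rw [PowerSeries.coeff_one]; simp
  | succ N ih =>
    intro r a s
    rw [sum_tuple_succ]
    have hstep : ∀ p ∈ antidiagonal s,
        (∑ x ∈ Nat.antidiagonalTuple N p.2,
          ((a.choose (ext (Fin.cons p.1 x : Fin (N + 1) → ℕ) 0) : ℕ) : ℚ) *
            P (N + 1) r (Fin.cons p.1 x)) =
        ((a.choose p.1 : ℕ) : ℚ) * r 0 ^ p.1 *
          coeff p.2 ((1 + Q N (fun i => r (i + 1))) ^ p.1) := by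
      intro p _
      rw [← ih, mul_sum]
      apply sum_congr rfl
      intro x _
      rw [ext_cons_zero, P_cons]
      ring
    rw [sum_congr rfl hstep]
    have hpow : (1 + Q (N + 1) r) ^ a = ∑ m ∈ range (a + 1),
        (C (r 0) * X * (1 + Q N (fun i => r (i + 1)))) ^ m * ((a.choose m : ℕ) : ℚ⟦X⟧) := by
      have : 1 + Q (N + 1) r = C (r 0) * X * (1 + Q N (fun i => r (i + 1))) + 1 := by
        rw [Q, add_comm]
      rw [this, add_pow]
      apply sum_congr rfl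
      intro m _
      rw [one_pow, mul_one]
    rw [hpow, map_sum]
    have hcoef : ∀ m : ℕ, coeff s ((C (r 0) * X * (1 + Q N (fun i => r (i + 1)))) ^ m *
        ((a.choose m : ℕ) : ℚ⟦X⟧)) =
        if m ≤ s then ((a.choose m : ℕ) : ℚ) * r 0 ^ m *
          coeff (s - m) ((1 + Q N (fun i => r (i + 1))) ^ m) else 0 := by
      intro m
      have e : (C (r 0) * X * (1 + Q N (fun i => r (i + 1)))) ^ m * ((a.choose m : ℕ) : ℚ⟦X⟧) =
          X ^ m * (C (((a.choose m : ℕ) : ℚ) * r 0 ^ m) *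
            (1 + Q N (fun i => r (i + 1))) ^ m) := by
        rw [mul_pow, mul_pow, map_mul, map_pow, map_natCast]
        ring
      rw [e, coeff_X_pow_mul']
      split_ifs with h
      · rw [coeff_C_mul]
      · rfl
    simp only [hcoef]
    rw [Finset.Nat.sum_antidiagonal_eq_sum_range_succ
      (fun i j => ((a.choose i : ℕ) : ℚ) * r 0 ^ i *
          coeff j ((1 + Q N (fun i => r (i + 1))) ^ i))]
    -- compare the two ranges
    have h1 : ∑ m ∈ range (a + 1), (if m ≤ s then ((a.choose m : ℕ) : ℚ) * r 0 ^ m *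
          coeff (s - m) ((1 + Q N (fun i => r (i + 1))) ^ m) else 0) =
        ∑ m ∈ range (max a s + 1), (if m ≤ s then ((a.choose m : ℕ) : ℚ) * r 0 ^ m *
          coeff (s - m) ((1 + Q N (fun i => r (i + 1))) ^ m) else 0) := by
      apply sum_subset
      · intro m hm; rw [mem_range] at *; have := le_max_left a s; omega
      · intro m _ hm
        rw [mem_range, not_lt] at hm
        rw [Nat.choose_eq_zero_of_lt (by omega)]
        simp
    have h2 : ∑ m ∈ range (s + 1), ((a.choose m : ℕ) : ℚ) * r 0 ^ m *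
          coeff (s - m) ((1 + Q N (fun i => r (i + 1))) ^ m) =
        ∑ m ∈ range (max a s + 1), (if m ≤ s then ((a.choose m : ℕ) : ℚ) * r 0 ^ m *
          coeff (s - m) ((1 + Q N (fun i => r (i + 1))) ^ m) else 0) := by
      have h2a : ∑ m ∈ range (s + 1), ((a.choose m : ℕ) : ℚ) * r 0 ^ m *
          coeff (s - m) ((1 + Q N (fun i => r (i + 1))) ^ m) =
        ∑ m ∈ range (s + 1), (if m ≤ s then ((a.choose m : ℕ) : ℚ) * r 0 ^ m *
          coeff (s - m) ((1 + Q N (fun i => r (i + 1))) ^ m) else 0) := by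
        apply sum_congr rfl
        intro m hm
        rw [mem_range] at hm
        rw [if_pos (by omega)]
      rw [h2a]
      apply sum_subset
      · intro m hm; rw [mem_range] at *; have := le_max_right a s; omega
      · intro m _ hm
        rw [mem_range, not_lt] at hm
        rw [if_neg (by omega)]
    rw [h1, h2]

/-- the full sum with a weight depending on the first entry -/
theorem full_sum (N s : ℕ) (r : ℕ → ℚ) (g : ℕ → ℚ) :
    ∑ l ∈ Nat.antidiagonalTuple (N + 1) s, g (ext l 0) * P (N + 1) r l =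
      ∑ a ∈ range (s + 1), g a * coeff s ((Q (N + 1) r) ^ a) := by
  rw [sum_tuple_succ]
  have hstep : ∀ p ∈ antidiagonal s,
      (∑ x ∈ Nat.antidiagonalTuple N p.2,
        g (ext (Fin.cons p.1 x : Fin (N + 1) → ℕ) 0) * P (N + 1) r (Fin.cons p.1 x)) =
      g p.1 * (r 0 ^ p.1 * coeff p.2 ((1 + Q N (fun i => r (i + 1))) ^ p.1)) := by
    intro p _
    rw [← tail_sum, mul_sum, mul_sum]
    apply sum_congr rfl
    intro x _
    rw [ext_cons_zero, P_cons]
    ring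
  rw [sum_congr rfl hstep]
  rw [Finset.Nat.sum_antidiagonal_eq_sum_range_succ
      (fun i j => g i * (r 0 ^ i * coeff j ((1 + Q N (fun i => r (i + 1))) ^ i)))]
  apply sum_congr rfl
  intro m hm
  rw [mem_range] at hm
  congr 1
  have e : Q (N + 1) r ^ m = X ^ m * (C (r 0 ^ m) * (1 + Q N (fun i => r (i + 1))) ^ m) := by
    rw [Q, mul_pow, mul_pow, map_pow]
    ring
  rw [e, coeff_X_pow_mul', if_pos (by omega), coeff_C_mul]

/-- the full generating function -/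
noncomputable def W (r : ℕ → ℚ) : ℚ⟦X⟧ :=
  PowerSeries.mk fun n => if n = 0 then 0 else ∏ i ∈ range n, r i

theorem W_rec (r : ℕ → ℚ) : W r = C (r 0) * X * (1 + W (fun i => r (i + 1))) := by
  ext n
  cases n with
  | zero =>
    rw [mul_comm (C (r 0)), mul_assoc]
    simp [W]
  | succ n =>
    have e : C (r 0) * X * (1 + W (fun i => r (i + 1))) =
        X * (C (r 0) * (1 + W (fun i => r (i + 1)))) := by ring
    rw [e, coeff_succ_X_mul, coeff_C_mul, map_add]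
    unfold W
    rw [coeff_mk, coeff_mk]
    rw [if_neg (Nat.succ_ne_zero n), prod_range_succ']
    cases n with
    | zero => simp
    | succ n =>
      rw [if_neg (Nat.succ_ne_zero n), PowerSeries.coeff_one, if_neg (Nat.succ_ne_zero n)]
      ring

theorem W_sub_Q (N : ℕ) : ∀ r : ℕ → ℚ, (X : ℚ⟦X⟧) ^ (N + 1) ∣ W r - Q N r := by
  induction N with
  | zero =>
    intro r
    rw [zero_add, pow_one, Q, sub_zero, W_rec]
    exact ⟨C (r 0) * (1 + W fun i => r (i + 1)), by ring⟩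
  | succ N ih =>
    intro r
    obtain ⟨c, hc⟩ := ih (fun i => r (i + 1))
    refine ⟨C (r 0) * c, ?_⟩
    rw [W_rec, Q]
    have : C (r 0) * X * (1 + W fun i => r (i + 1)) - C (r 0) * X * (1 + Q N fun i => r (i + 1)) =
        C (r 0) * X * ((W fun i => r (i + 1)) - Q N fun i => r (i + 1)) := by ring
    rw [this, hc]
    ring

theorem coeff_Q_pow (N s a : ℕ) (h : s ≤ N) (r : ℕ → ℚ) :
    coeff s (Q N r ^ a) = coeff s (W r ^ a) := by
  have h1 : (X : ℚ⟦X⟧) ^ (N + 1) ∣ W r ^ a - Q N r ^ a :=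
    (W_sub_Q N r).trans (sub_dvd_pow_sub_pow _ _ a)
  have h2 := (X_pow_dvd_iff.mp h1) s (by omega)
  rw [map_sub, sub_eq_zero] at h2
  exact h2.symm

/-- key evaluation: sum of `(1 + a) w^a` when `(1 - w)^2 * Z = 1` -/
theorem key_eval (w Z : ℚ⟦X⟧) (hw : constantCoeff w = 0) (hZ : (1 - w) ^ 2 * Z = 1) (n : ℕ) :
    ∑ a ∈ range (n + 1), ((1 : ℚ) + (a : ℚ)) * coeff n (w ^ a) = coeff n Z := by
  have hS : ∀ m : ℕ, (∑ a ∈ range (m + 1), ((1 : ℚ⟦X⟧) + (a : ℚ⟦X⟧)) * w ^ a) * (1 - w) ^ 2 =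
      1 - w ^ (m + 1) * ((m : ℚ⟦X⟧) + 2 - ((m : ℚ⟦X⟧) + 1) * w) := by
    intro m
    induction m with
    | zero => simp; ring
    | succ m ih =>
      rw [sum_range_succ, add_mul, ih]
      push_cast
      ring
  have h1 : ∑ a ∈ range (n + 1), ((1 : ℚ) + (a : ℚ)) * coeff n (w ^ a) =
      coeff n (∑ a ∈ range (n + 1), ((1 : ℚ⟦X⟧) + (a : ℚ⟦X⟧)) * w ^ a) := by
    rw [map_sum]
    apply sum_congr rfl
    intro a _
    have : (1 : ℚ⟦X⟧) + (a : ℚ⟦X⟧) = C ((1 : ℚ) + (a : ℚ)) := by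
      rw [map_add, map_one, map_natCast]
    rw [this, coeff_C_mul]
  rw [h1]
  have h2 : (∑ a ∈ range (n + 1), ((1 : ℚ⟦X⟧) + (a : ℚ⟦X⟧)) * w ^ a) =
      Z - w ^ (n + 1) * (((n : ℚ⟦X⟧) + 2 - ((n : ℚ⟦X⟧) + 1) * w) * Z) := by
    calc (∑ a ∈ range (n + 1), ((1 : ℚ⟦X⟧) + (a : ℚ⟦X⟧)) * w ^ a)
        = (∑ a ∈ range (n + 1), ((1 : ℚ⟦X⟧) + (a : ℚ⟦X⟧)) * w ^ a) * ((1 - w) ^ 2 * Z) := by
          rw [hZ, mul_one]
      _ = ((∑ a ∈ range (n + 1), ((1 : ℚ⟦X⟧) + (a : ℚ⟦X⟧)) * w ^ a) * (1 - w) ^ 2) * Z := by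
          ring
      _ = _ := by rw [hS n]; ring
  rw [h2, map_sub]
  have h3 : (X : ℚ⟦X⟧) ^ (n + 1) ∣ w ^ (n + 1) * (((n : ℚ⟦X⟧) + 2 - ((n : ℚ⟦X⟧) + 1) * w) * Z) :=
    Dvd.dvd.mul_right (pow_dvd_pow_of_dvd (X_dvd_iff.mpr hw) _) _
  rw [(X_pow_dvd_iff.mp h3) n (by omega), sub_zero]

end Pool.Agent.V11301.TG
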