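import Mathlib
import Pool.Agent.V11301.TupleGF

namespace Pool.Agent.V11301.TG

open Finset PowerSeries

/-- weights of the first sum: `r i = a_{i+1}/(i+1)` -/
def r1 (i : ℕ) : ℚ := (if i = 0 then 1 else 2 * (i : ℚ) - 1) / (i + 1)

/-- weights of the second sum: `r i = (2 (i+1) - 1)/(i+1)` -/
def r2 (i : ℕ) : ℚ := (2 * (i : ℚ) + 1) / (i + 1)

theorem W_zero (r : ℕ → ℚ) : constantCoeff (W r) = 0 := by
  simp [W]

theorem coeff_W_one (r : ℕ → ℚ) : coeff 1 (W r) = r 0 := by
  simp [W]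

theorem coeff_W_succ (r : ℕ → ℚ) (n : ℕ) :
    coeff (n + 2) (W r) = coeff (n + 1) (W r) * r (n + 1) := by
  unfold W
  rw [coeff_mk, coeff_mk, if_neg (by omega), if_neg (by omega), prod_range_succ]

/-- a series determined by a first order recurrence -/
theorem ode_coeff (Y : ℚ⟦X⟧) (c : ℚ) (h : (1 - 2 * X) * d⁄dX ℚ Y = C c * Y) (n : ℕ) :
    coeff (n + 1) Y * (n + 1) = (2 * n + c) * coeff n Y := by
  have h1 := congrArg (coeff n) h
  rw [sub_mul, one_mul, map_sub, coeff_C_mul, coeff_derivative] at h1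
  have h2 : coeff n (2 * X * d⁄dX ℚ Y) = 2 * n * coeff n Y := by
    have e : (2 : ℚ⟦X⟧) * X * d⁄dX ℚ Y = X * (C (2 : ℚ) * d⁄dX ℚ Y) := by
      have : (2 : ℚ⟦X⟧) = C (2 : ℚ) := by rw [map_ofNat]
      rw [this]; ring
    rw [e]
    cases n with
    | zero => simp
    | succ n =>
      rw [coeff_succ_X_mul, coeff_C_mul, coeff_derivative]
      push_cast; ring
  rw [h2] at h1
  linarith

theorem ode_of_coeff (Y : ℚ⟦X⟧) (c : ℚ)
    (h : ∀ n : ℕ, coeff (n + 1) Y * (n + 1) = (2 * n + c) * coeff n Y) :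
    (1 - 2 * X) * d⁄dX ℚ Y = C c * Y := by
  ext n
  rw [sub_mul, one_mul, map_sub, coeff_C_mul, coeff_derivative]
  have h2 : coeff n (2 * X * d⁄dX ℚ Y) = 2 * n * coeff n Y := by
    have e : (2 : ℚ⟦X⟧) * X * d⁄dX ℚ Y = X * (C (2 : ℚ) * d⁄dX ℚ Y) := by
      have : (2 : ℚ⟦X⟧) = C (2 : ℚ) := by rw [map_ofNat]
      rw [this]; ring
    rw [e]
    cases n with
    | zero => simp
    | succ n =>
      rw [coeff_succ_X_mul, coeff_C_mul, coeff_derivative]
      push_cast; ring
  rw [h2, h n]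
  ring

/-- squaring doubles the exponent -/
theorem ode_sq (V : ℚ⟦X⟧) (c : ℚ) (h : (1 - 2 * X) * d⁄dX ℚ V = C c * V) :
    (1 - 2 * X) * d⁄dX ℚ (V ^ 2) = C (2 * c) * V ^ 2 := by
  have e : d⁄dX ℚ (V ^ 2) = V * d⁄dX ℚ V + V * d⁄dX ℚ V := by
    rw [pow_two, Derivation.leibniz, smul_eq_mul]
  rw [e]
  have e2 : C (2 * c) = (2 : ℚ⟦X⟧) * C c := by rw [map_mul, map_ofNat]
  rw [e2]
  calc (1 - 2 * X) * (V * d⁄dX ℚ V + V * d⁄dX ℚ V)
      = 2 * V * ((1 - 2 * X) * d⁄dX ℚ V) := by ring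
    _ = _ := by rw [h]; ring

theorem sq1 : (1 - W r1) ^ 2 = 1 - 2 * X := by
  have h : (1 - 2 * X) * d⁄dX ℚ (1 - W r1) = C (-1 : ℚ) * (1 - W r1) := by
    apply ode_of_coeff
    intro n
    cases n with
    | zero =>
      rw [map_sub, map_sub, zero_add, coeff_W_one, PowerSeries.coeff_one, PowerSeries.coeff_one]
      simp [r1, W]
    | succ n =>
      rw [map_sub, map_sub, coeff_W_succ, PowerSeries.coeff_one, PowerSeries.coeff_one,
        if_neg (by omega), if_neg (by omega), r1, if_neg (by omega)]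
      have : ((n : ℚ) + 1 + 1) ≠ 0 := by positivity
      push_cast
      field_simp
      ring
  have h2 := ode_sq _ _ h
  have hc := ode_coeff _ _ h2
  have h0 : coeff 0 ((1 - W r1) ^ 2) = 1 := by
    rw [coeff_zero_eq_constantCoeff_apply, map_pow, map_sub, W_zero]; simp
  have h1 : coeff 1 ((1 - W r1) ^ 2) = -2 := by
    have := hc 0
    rw [h0] at this
    push_cast at this
    linarith
  have h2' : ∀ n : ℕ, coeff (n + 2) ((1 - W r1) ^ 2) = 0 := by
    intro n
    induction n with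
    | zero =>
      have := hc 1
      push_cast at this
      have h3 : coeff (1 + 1) ((1 - W r1) ^ 2) * 2 = 0 := by linarith
      have : coeff (0 + 2) ((1 - W r1) ^ 2) = coeff (1 + 1) ((1 - W r1) ^ 2) := rfl
      rw [this]; linarith
    | succ n ih =>
      have := hc (n + 2)
      rw [ih, mul_zero] at this
      have hne : ((n + 2 : ℕ) : ℚ) + 1 ≠ 0 := by positivity
      exact (mul_eq_zero.mp this).resolve_right hne
  ext n
  have e2 : coeff n ((2 : ℚ⟦X⟧) * X) = if n = 1 then 2 else 0 := by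
    have : (2 : ℚ⟦X⟧) = C (2 : ℚ) := by rw [map_ofNat]
    rw [this, coeff_C_mul, coeff_X]; split_ifs <;> simp
  rw [map_sub, e2, PowerSeries.coeff_one]
  match n with
  | 0 => rw [h0]; simp
  | 1 => rw [h1]; simp
  | n + 2 => rw [h2' n]; simp

theorem sq2 : (1 + W r2) ^ 2 * (1 - 2 * X) = 1 := by
  have h : (1 - 2 * X) * d⁄dX ℚ (1 + W r2) = C (1 : ℚ) * (1 + W r2) := by
    apply ode_of_coeff
    intro n
    cases n with
    | zero =>
      rw [map_add, map_add, zero_add, coeff_W_one, PowerSeries.coeff_one, PowerSeries.coeff_one]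
      simp [r2, W]
    | succ n =>
      rw [map_add, map_add, coeff_W_succ, PowerSeries.coeff_one, PowerSeries.coeff_one,
        if_neg (by omega), if_neg (by omega), r2]
      have : ((n : ℚ) + 1 + 1) ≠ 0 := by positivity
      push_cast
      field_simp
      ring
  have h2 := ode_sq _ _ h
  have hc := ode_coeff _ _ h2
  have h0 : coeff 0 ((1 + W r2) ^ 2) = 1 := by
    rw [coeff_zero_eq_constantCoeff_apply, map_pow, map_add, W_zero]; simp
  have h1 : ∀ n : ℕ, coeff n ((1 + W r2) ^ 2) = 2 ^ n := by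
    intro n
    induction n with
    | zero => rw [h0, pow_zero]
    | succ n ih =>
      have := hc n
      rw [ih] at this
      have hne : (n : ℚ) + 1 ≠ 0 := by positivity
      have h4 : coeff (n + 1) ((1 + W r2) ^ 2) * ((n : ℚ) + 1) = 2 ^ (n + 1) * ((n : ℚ) + 1) := by
        rw [this, pow_succ]; ring
      exact mul_right_cancel₀ hne h4
  ext n
  have e2 : (1 + W r2) ^ 2 * (1 - 2 * X) = (1 + W r2) ^ 2 - X * (C (2 : ℚ) * (1 + W r2) ^ 2) := by
    have : (2 : ℚ⟦X⟧) = C (2 : ℚ) := by rw [map_ofNat]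
    rw [this]; ring
  rw [e2, map_sub, PowerSeries.coeff_one]
  cases n with
  | zero => rw [h1]; simp
  | succ n =>
    rw [h1, coeff_succ_X_mul, coeff_C_mul, h1, if_neg (by omega), pow_succ]; ring

end Pool.Agent.V11301.TG
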