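import Mathlib
import Pool.Agent.V11301.PCData

/-!
The inductive structure of the parity-perturbed Conway-Mallows sequence around the anchors.
-/

namespace Pool.Agent.V11301.PC

/-- basic properties of the sequence, extended to integer arguments -/
structure Good (B : ℤ → ℤ) : Prop where
  h1 : B 1 = 1
  h2 : B 2 = 1
  hrec : ∀ n : ℤ, 3 ≤ n → B n = B (B (n - 1)) + B (n - B (n - 1)) + sg n
  hlo : ∀ n : ℤ, 1 ≤ n → 1 ≤ B n
  hhi : ∀ n : ℤ, 1 ≤ n → B n ≤ n
  hodd : ∀ n : ℤ, 1 ≤ n → B n % 2 = 1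

theorem sg_even {n : ℤ} (h : n % 2 = 0) : sg n = 1 := by simp [sg, h]
theorem sg_odd {n : ℤ} (h : n % 2 = 1) : sg n = -1 := by simp [sg, h]
theorem sg_cases (n : ℤ) : sg n = 1 ∨ sg n = -1 := by
  unfold sg; split_ifs <;> simp

/-- the table gives the sequence -/
theorem table_eq {B : ℤ → ℤ} (hB : Good B) : ∀ n : ℕ, 1 ≤ n → n < 10331 → B n = tab n := by
  intro n
  induction n using Nat.strong_induction_on with
  | _ n ih =>
    intro h1 h2
    rcases Nat.lt_or_ge n 3 with h3 | h3
    · have : n = 1 ∨ n = 2 := by omega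
      rcases this with rfl | rfl
      · have : tab 1 = 1 := by decide +kernel
        rw [this]; exact hB.h1
      · have : tab 2 = 1 := by decide +kernel
        rw [this]; exact hB.h2
    · have hk := allR_spec _ _ rec_ok n h2
      have hlt : Nat.blt n 3 = false := by
        by_contra hcon
        have : Nat.blt n 3 = true := by simpa using hcon
        have := Nat.blt_eq.mp this
        omega
      rw [okRec, hlt, Bool.false_or, Bool.and_eq_true, Bool.and_eq_true] at hk
      obtain ⟨⟨ha, hb⟩, hc⟩ := hk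
      have ha' := Nat.le_of_ble_eq_true ha
      have hb' := Nat.le_of_ble_eq_true hb
      have hc' := Nat.eq_of_beq_eq_true hc
      set v := tab (n - 1) with hv
      have e1 : B ((n - 1 : ℕ) : ℤ) = (v : ℤ) := ih (n - 1) (by omega) (by omega) (by omega)
      have e2 : B ((v : ℕ) : ℤ) = (tab v : ℤ) := ih v (by omega) ha' (by omega)
      have e3 : B ((n - v : ℕ) : ℤ) = (tab (n - v) : ℤ) :=
        ih (n - v) (by omega) (by omega) (by omega)
      have hr := hB.hrec n (by omega)
      have c1 : (n : ℤ) - 1 = ((n - 1 : ℕ) : ℤ) := by omega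
      rw [c1, e1] at hr
      have c2 : (n : ℤ) - (v : ℤ) = ((n - v : ℕ) : ℤ) := by omega
      rw [c2, e2, e3] at hr
      rw [hr]
      rcases Nat.mod_two_eq_zero_or_one n with hp | hp
      · rw [sg_even (by omega)]; rw [hp] at hc'; omega
      · rw [sg_odd (by omega)]; rw [hp] at hc'; omega

/-- the anchors -/
def N : ℕ → ℤ
  | 0 => 1516
  | 1 => 2232
  | 2 => 3260
  | k + 3 => N (k + 2) + N k + dl (decide (k % 2 = 0))

/-- type of the `k`-th window -/
def tp (k : ℕ) : Bool := decide (k % 2 = 0)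

theorem N3 (k : ℕ) : N (k + 3) = N (k + 2) + N k + dl (tp k) := by
  rw [N]; rfl

theorem tp_succ (k : ℕ) : tp (k + 1) = !(tp k) := by
  unfold tp
  rcases Nat.mod_two_eq_zero_or_one k with h | h
  · have : (k + 1) % 2 = 1 := by omega
    simp [h, this]
  · have : (k + 1) % 2 = 0 := by omega
    simp [h, this]

theorem tp_two (k : ℕ) : tp (k + 2) = tp k := by
  rw [tp_succ, tp_succ, Bool.not_not]

theorem tp_three (k : ℕ) : tp (k + 3) = !(tp k) := by
  rw [tp_succ, tp_two]

theorem dl_true : dl true = 12 := rfl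
theorem dl_false : dl false = -14 := rfl

theorem dl_cases (t : Bool) : dl t = 12 ∨ dl t = -14 := by
  cases t <;> simp [dl_true, dl_false]

theorem N_even : ∀ k : ℕ, N k % 2 = 0 := by
  intro k
  induction k using Nat.strong_induction_on with
  | _ k ih =>
    match k, ih with
    | 0, _ => rfl
    | 1, _ => rfl
    | 2, _ => rfl
    | k + 3, ih =>
      have h1 := ih (k + 2) (by omega)
      have h2 := ih k (by omega)
      rw [N3]
      rcases dl_cases (tp k) with h | h <;> omega

theorem N_zero : N 0 = 1516 := rfl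
theorem N_one : N 1 = 2232 := rfl
theorem N_two : N 2 = 3260 := rfl
theorem N_three : N 3 = 4788 := rfl
theorem N_four : N 4 = 7006 := rfl
theorem N_five : N 5 = 10278 := rfl

theorem N_growth : ∀ k : ℕ, 1000 ≤ N k ∧ 500 ≤ 4 * N k - N (k + 3) ∧
    1000 ≤ 7 * N (k + 3) - 10 * N k := by
  intro k
  induction k using Nat.strong_induction_on with
  | _ k ih =>
    match k, ih with
    | 0, _ => rw [N_zero, N_three]; norm_num
    | 1, _ => rw [N_one, N_four]; norm_num
    | 2, _ => rw [N_two, N_five]; norm_num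
    | k + 3, ih =>
      obtain ⟨a1, a2, a3⟩ := ih (k + 2) (by omega)
      obtain ⟨b1, b2, b3⟩ := ih k (by omega)
      have e1 := N3 k
      have e2 : N (k + 3 + 3) = N (k + 3 + 2) + N (k + 3) + dl (tp (k + 3)) := N3 (k + 3)
      have e3 : N (k + 2 + 3) = N (k + 3 + 2) := rfl
      rcases dl_cases (tp k) with h | h <;> rcases dl_cases (tp (k + 3)) with h' | h' <;>
        refine ⟨by omega, by omega, by omega⟩

/-- the window statement -/
def WinP (B : ℤ → ℤ) (k : ℕ) : Prop :=
  ∀ j : ℤ, -45 ≤ j → j ≤ 50 → B (N (k + 3) - j) = N k - T (tp k) j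

/-- the barrier statement -/
def BarP (B : ℤ → ℤ) (k : ℕ) : Prop :=
  ∀ n : ℤ, 1 ≤ n → n ≤ N (k + 3) - cond (tp k) 15 9 →
    (N (k + 3) - n) + cond (tp k) (-14) 29 ≤ 4 * (N k - B n) ∧
    10 * (N k - B n) ≤ 7 * (N (k + 3) - n) + cond (tp k) (-81) 66

theorem bar0 {B : ℤ → ℤ} (hB : Good B) : BarP B 0 := by
  intro n h1 h2
  have ht : tp 0 = true := rfl
  rw [ht] at h2 ⊢
  simp only [cond_true] at h2 ⊢
  rw [show (0 : ℕ) + 3 = 3 from rfl, N_three] at h2 ⊢
  rw [N_zero]
  obtain ⟨m, rfl⟩ : ∃ m : ℕ, n = m := ⟨n.toNat, by omega⟩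
  have hk := allR_spec _ _ a0_ok m (by omega)
  have hlt : Nat.blt m 1 = false := by
    by_contra hcon
    have : Nat.blt m 1 = true := by simpa using hcon
    have := Nat.blt_eq.mp this
    omega
  rw [okA0, hlt, Bool.false_or, Bool.and_eq_true] at hk
  have ha := Nat.le_of_ble_eq_true hk.1
  have hb := Nat.le_of_ble_eq_true hk.2
  rw [table_eq hB m (by omega) (by omega)]
  omega

theorem bar1 {B : ℤ → ℤ} (hB : Good B) : BarP B 1 := by
  intro n h1 h2
  have ht : tp 1 = false := rfl
  rw [ht] at h2 ⊢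
  simp only [cond_false] at h2 ⊢
  rw [show (1 : ℕ) + 3 = 4 from rfl, N_four] at h2 ⊢
  rw [N_one]
  obtain ⟨m, rfl⟩ : ∃ m : ℕ, n = m := ⟨n.toNat, by omega⟩
  have hk := allR_spec _ _ b1_ok m (by omega)
  have hlt : Nat.blt m 1 = false := by
    by_contra hcon
    have : Nat.blt m 1 = true := by simpa using hcon
    have := Nat.blt_eq.mp this
    omega
  rw [okB1, hlt, Bool.false_or, Bool.and_eq_true] at hk
  have ha := Nat.le_of_ble_eq_true hk.1
  have hb := Nat.le_of_ble_eq_true hk.2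
  rw [table_eq hB m (by omega) (by omega)]
  omega

theorem bar2 {B : ℤ → ℤ} (hB : Good B) : BarP B 2 := by
  intro n h1 h2
  have ht : tp 2 = true := rfl
  rw [ht] at h2 ⊢
  simp only [cond_true] at h2 ⊢
  rw [show (2 : ℕ) + 3 = 5 from rfl, N_five] at h2 ⊢
  rw [N_two]
  obtain ⟨m, rfl⟩ : ∃ m : ℕ, n = m := ⟨n.toNat, by omega⟩
  have hk := allR_spec _ _ a2_ok m (by omega)
  have hlt : Nat.blt m 1 = false := by
    by_contra hcon
    have : Nat.blt m 1 = true := by simpa using hcon
    have := Nat.blt_eq.mp this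
    omega
  rw [okA2, hlt, Bool.false_or, Bool.and_eq_true] at hk
  have ha := Nat.le_of_ble_eq_true hk.1
  have hb := Nat.le_of_ble_eq_true hk.2
  rw [table_eq hB m (by omega) (by omega)]
  omega

theorem win0 {B : ℤ → ℤ} (hB : Good B) : WinP B 0 := by
  intro j h1 h2
  have ht : tp 0 = true := rfl
  rw [ht]
  rw [show (0 : ℕ) + 3 = 3 from rfl, N_three, N_zero]
  obtain ⟨m, hm⟩ : ∃ m : ℕ, 4788 - j = m := ⟨(4788 - j).toNat, by omega⟩
  have : T true j = 1516 - (tab (4788 - j).toNat : ℤ) := rfl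
  rw [this, hm, Int.toNat_natCast, table_eq hB m (by omega) (by omega)]
  omega

theorem win1 {B : ℤ → ℤ} (hB : Good B) : WinP B 1 := by
  intro j h1 h2
  have ht : tp 1 = false := rfl
  rw [ht]
  rw [show (1 : ℕ) + 3 = 4 from rfl, N_four, N_one]
  obtain ⟨m, hm⟩ : ∃ m : ℕ, 7006 - j = m := ⟨(7006 - j).toNat, by omega⟩
  have : T false j = 2232 - (tab (7006 - j).toNat : ℤ) := rfl
  rw [this, hm, Int.toNat_natCast, table_eq hB m (by omega) (by omega)]
  omega

theorem win2 {B : ℤ → ℤ} (hB : Good B) : WinP B 2 := by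
  intro j h1 h2
  have ht : tp 2 = true := rfl
  rw [ht]
  rw [show (2 : ℕ) + 3 = 5 from rfl, N_five, N_two]
  obtain ⟨i, hi⟩ : ∃ i : ℕ, 50 - j = i := ⟨(50 - j).toNat, by omega⟩
  have hj : j = 50 - (i : ℤ) := by omega
  have hk := of_decide_eq_true (allR_spec _ _ w_ok i (by omega))
  rw [hj]
  have hm : (10278 : ℤ) - (50 - (i : ℤ)) = ((10228 + i : ℕ) : ℤ) := by push_cast; ring
  rw [hm, table_eq hB _ (by omega) (by omega)]
  exact hk

/-- the recursion read from an anchor -/
theorem step_eq {B : ℤ → ℤ} (hB : Good B) (k : ℕ) (j c : ℤ) (hn : 3 ≤ N (k + 6) - j)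
    (hc : B (N (k + 6) - (j + 1)) = N (k + 3) - c) :
    N (k + 3) - B (N (k + 6) - j) =
      dl (tp k) + (N k - B (N (k + 3) - c)) +
        (N (k + 2) - B (N (k + 5) - (j - dl (tp (k + 3)) - c))) - sg j := by
  have hr := hB.hrec (N (k + 6) - j) hn
  have e1 : N (k + 6) - j - 1 = N (k + 6) - (j + 1) := by ring
  rw [e1, hc] at hr
  have e2 : N (k + 6) = N (k + 5) + N (k + 3) + dl (tp (k + 3)) := N3 (k + 3)
  have e3 : N (k + 3) = N (k + 2) + N k + dl (tp k) := N3 k
  have e4 : N (k + 6) - j - (N (k + 3) - c) = N (k + 5) - (j - dl (tp (k + 3)) - c) := by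
    rw [e2]; ring
  rw [e4] at hr
  have e5 : sg (N (k + 6) - j) = sg j := by
    have := N_even (k + 6)
    rcases Int.emod_two_eq_zero_or_one j with h | h
    · rw [sg_even h, sg_even (by omega)]
    · rw [sg_odd h, sg_odd (by omega)]
  rw [e5] at hr
  rw [hr]
  omega

/-- the far part of the barrier -/
theorem bar_far {B : ℤ → ℤ} (hB : Good B) (k : ℕ) (b0 : BarP B k) (b2 : BarP B (k + 2)) :
    ∀ m : ℕ, 1 ≤ m → (m : ℤ) ≤ N (k + 6) - 51 →
    (N (k + 6) - m) + cond (tp (k + 3)) (-14) 29 ≤ 4 * (N (k + 3) - B m) ∧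
    10 * (N (k + 3) - B m) ≤ 7 * (N (k + 6) - m) + cond (tp (k + 3)) (-81) 66 := by
  intro m
  induction m using Nat.strong_induction_on with
  | _ m ih =>
    intro h1 h2
    obtain ⟨g1, g2, g3⟩ := N_growth (k + 3)
    have e36 : N (k + 3 + 3) = N (k + 6) := rfl
    rw [e36] at g2 g3
    rcases Nat.lt_or_ge m 3 with h3 | h3
    · have hBm : B m = 1 := by
        have : m = 1 ∨ m = 2 := by omega
        rcases this with rfl | rfl
        · exact hB.h1
        · exact hB.h2
      rw [hBm]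
      cases tp (k + 3) <;> simp only [cond_true, cond_false] <;> constructor <;> omega
    · have hi := ih (m - 1) (by omega) (by omega) (by omega)
      have ec : ((m - 1 : ℕ) : ℤ) = (m : ℤ) - 1 := by omega
      rw [ec] at hi
      obtain ⟨i1, i2⟩ := hi
      set j : ℤ := N (k + 6) - m with hj
      obtain ⟨c, hc⟩ : ∃ c : ℤ, c = N (k + 3) - B ((m : ℤ) - 1) := ⟨_, rfl⟩
      have hst := step_eq hB k j c (by omega) (by
        have : N (k + 6) - (j + 1) = (m : ℤ) - 1 := by omega
        rw [this]; omega)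
      have ej : N (k + 6) - j = (m : ℤ) := by omega
      rw [ej] at hst
      have hv1 := hB.hlo ((m : ℤ) - 1) (by omega)
      have hv2 := hB.hhi ((m : ℤ) - 1) (by omega)
      have e2 : N (k + 6) = N (k + 5) + N (k + 3) + dl (tp (k + 3)) := N3 (k + 3)
      obtain ⟨e, he⟩ : ∃ e : ℤ, e = j - dl (tp (k + 3)) - c := ⟨_, rfl⟩
      rw [← he] at hst
      have q0 := b0 (N (k + 3) - c)
      have q2 := b2 (N (k + 5) - e)
      have e52 : N (k + 2 + 3) = N (k + 5) := rfl
      rw [e52, tp_two k] at q2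
      have hsg := sg_cases j
      rw [tp_three] at i1 i2 he e2 ⊢
      cases htp : tp k
      · rw [htp] at i1 i2 he e2 hst q0 q2
        simp only [Bool.not_false, cond_true, cond_false, dl_true, dl_false] at i1 i2 he e2 hst q0 q2 ⊢
        have q0' := q0 (by omega) (by omega)
        have q2' := q2 (by omega) (by omega)
        rcases hsg with hs | hs <;> rw [hs] at hst <;> constructor <;> omega
      · rw [htp] at i1 i2 he e2 hst q0 q2
        simp only [Bool.not_true, cond_true, cond_false, dl_true, dl_false] at i1 i2 he e2 hst q0 q2 ⊢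
        have q0' := q0 (by omega) (by omega)
        have q2' := q2 (by omega) (by omega)
        rcases hsg with hs | hs <;> rw [hs] at hst <;> constructor <;> omega

/-- propagation of the candidate sets -/
theorem cand_step {B : ℤ → ℤ} (hB : Good B) (k : ℕ) (w0 : WinP B k) (w2 : WinP B (k + 2))
    (M : ℕ) (hM : M ≤ 130)
    (hok : ∀ i < M, okC (tp (k + 3)) i = true)
    (hst : N (k + 3) - B (N (k + 6) - ((M : ℤ) - 45)) ∈ cand (tp (k + 3)) ((M : ℤ) - 45)) :
    ∀ d : ℕ, d ≤ M →
      N (k + 3) - B (N (k + 6) - ((M : ℤ) - 45 - d)) ∈ cand (tp (k + 3)) ((M : ℤ) - 45 - d) := by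
  intro d
  induction d with
  | zero => intro _; simpa using hst
  | succ d ih =>
    intro hd
    have hprev := ih (by omega)
    have hk := hok (M - (d + 1)) (by omega)
    have ei : ((M - (d + 1) : ℕ) : ℤ) = (M : ℤ) - d - 1 := by omega
    rw [okC, List.all_eq_true] at hk
    rw [ei] at hk
    have e1 : (M : ℤ) - d - 1 - 44 = (M : ℤ) - 45 - d := by ring
    have e2 : (M : ℤ) - d - 1 - 45 = (M : ℤ) - 45 - ((d + 1 : ℕ) : ℤ) := by push_cast; ring
    rw [e1, e2] at hk
    obtain ⟨c, hc⟩ : ∃ c : ℤ, c = N (k + 3) - B (N (k + 6) - ((M : ℤ) - 45 - d)) := ⟨_, rfl⟩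
    rw [← hc] at hprev
    have hk' := hk c hprev
    rw [Bool.and_eq_true] at hk'
    obtain ⟨r1, r2⟩ := hk'
    have r1' := of_decide_eq_true r1
    obtain ⟨s1, s2, s3, s4⟩ := r1'
    set j : ℤ := (M : ℤ) - 45 - ((d + 1 : ℕ) : ℤ) with hj
    have hj1 : (M : ℤ) - 45 - d = j + 1 := by rw [hj]; push_cast; ring
    obtain ⟨g1, g2, g3⟩ := N_growth (k + 6)
    have hst' := step_eq hB k j c (by omega) (by
      rw [hj1] at hc; omega)
    rw [w0 c s1 s2] at hst'
    have hw2 := w2 (j - dl (tp (k + 3)) - c) s3 s4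
    have e52 : N (k + 2 + 3) = N (k + 5) := rfl
    rw [e52, tp_two k] at hw2
    rw [hw2] at hst'
    have hG : N (k + 3) - B (N (k + 6) - j) = G (tp (k + 3)) j c := by
      rw [hst', G]
      have : (!(tp (k + 3))) = tp k := by rw [tp_three, Bool.not_not]
      rw [this]; ring
    rw [hG]
    exact List.contains_iff_mem.mp r2

/-- the window follows from the candidates -/
theorem win_of_cand {B : ℤ → ℤ} (k : ℕ) (M : ℕ) (hM : 96 ≤ M)
    (h : ∀ d : ℕ, d ≤ M →
      N (k + 3) - B (N (k + 6) - ((M : ℤ) - 45 - d)) ∈ cand (tp (k + 3)) ((M : ℤ) - 45 - d)) :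
    WinP B (k + 3) := by
  intro j h1 h2
  have h3 := h (((M : ℤ) - 45 - j).toNat) (by omega)
  have e : (M : ℤ) - 45 - (((M : ℤ) - 45 - j).toNat : ℤ) = j := by omega
  rw [e, cand, if_pos h2, List.mem_singleton] at h3
  have e36 : N (k + 3 + 3) = N (k + 6) := rfl
  rw [e36]
  omega

theorem win_step {B : ℤ → ℤ} (hB : Good B) (k : ℕ) (w0 : WinP B k) (w2 : WinP B (k + 2))
    (b0 : BarP B k) (b2 : BarP B (k + 2)) : WinP B (k + 3) := by
  obtain ⟨g1, g2, g3⟩ := N_growth (k + 6)
  have hev := N_even (k + 3)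
  cases htp : tp (k + 3)
  · -- start at offset 58
    obtain ⟨m, hm⟩ : ∃ m : ℕ, N (k + 6) - 58 = m := ⟨(N (k + 6) - 58).toNat, by omega⟩
    have hf := bar_far hB k b0 b2 m (by omega) (by omega)
    rw [htp] at hf
    simp only [cond_false] at hf
    have ho := hB.hodd m (by omega)
    apply win_of_cand k 103 (by norm_num)
    apply cand_step hB k w0 w2 103 (by norm_num)
    · rw [htp]; exact allR_spec _ _ cB_ok
    · rw [htp]
      have : ((103 : ℕ) : ℤ) - 45 = 58 := by norm_num
      rw [this, hm]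
      exact candB_start _ (by omega) (by omega) (by omega)
  · -- start at offset 79
    obtain ⟨m, hm⟩ : ∃ m : ℕ, N (k + 6) - 79 = m := ⟨(N (k + 6) - 79).toNat, by omega⟩
    have hf := bar_far hB k b0 b2 m (by omega) (by omega)
    rw [htp] at hf
    simp only [cond_true] at hf
    have ho := hB.hodd m (by omega)
    apply win_of_cand k 124 (by norm_num)
    apply cand_step hB k w0 w2 124 (by norm_num)
    · rw [htp]; exact allR_spec _ _ cA_ok
    · rw [htp]
      have : ((124 : ℕ) : ℤ) - 45 = 79 := by norm_num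
      rw [this, hm]
      exact candA_start _ (by omega) (by omega) (by omega)

theorem bar_step {B : ℤ → ℤ} (hB : Good B) (k : ℕ) (w3 : WinP B (k + 3))
    (b0 : BarP B k) (b2 : BarP B (k + 2)) : BarP B (k + 3) := by
  intro n h1 h2
  have e36 : N (k + 3 + 3) = N (k + 6) := rfl
  rw [e36] at h2 ⊢
  obtain ⟨m, rfl⟩ : ∃ m : ℕ, n = m := ⟨n.toNat, by omega⟩
  by_cases hfar : (m : ℤ) ≤ N (k + 6) - 51
  · exact bar_far hB k b0 b2 m (by omega) hfar
  · have hw := w3 (N (k + 6) - m)
    rw [e36] at hw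
    have e : N (k + 6) - (N (k + 6) - (m : ℤ)) = m := by ring
    rw [e] at hw
    cases htp : tp (k + 3)
    · rw [htp] at h2 hw
      simp only [cond_false] at h2 ⊢
      have hw' := hw (by omega) (by omega)
      obtain ⟨i, hi⟩ : ∃ i : ℕ, N (k + 6) - m = (i : ℤ) + 9 :=
        ⟨(N (k + 6) - m - 9).toNat, by omega⟩
      have hk := of_decide_eq_true (allR_spec _ _ barB_ok i (by omega))
      rw [hi] at hw' ⊢
      rw [hw']
      constructor
      · have := hk.1; omega
      · have := hk.2; omega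
    · rw [htp] at h2 hw
      simp only [cond_true] at h2 ⊢
      have hw' := hw (by omega) (by omega)
      obtain ⟨i, hi⟩ : ∃ i : ℕ, N (k + 6) - m = (i : ℤ) + 15 :=
        ⟨(N (k + 6) - m - 15).toNat, by omega⟩
      have hk := of_decide_eq_true (allR_spec _ _ barA_ok i (by omega))
      rw [hi] at hw' ⊢
      rw [hw']
      constructor
      · have := hk.1; omega
      · have := hk.2; omega

/-- windows and barriers at all scales -/
theorem all_scales {B : ℤ → ℤ} (hB : Good B) : ∀ k : ℕ, WinP B k ∧ BarP B k := by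
  intro k
  induction k using Nat.strong_induction_on with
  | _ k ih =>
    match k, ih with
    | 0, _ => exact ⟨win0 hB, bar0 hB⟩
    | 1, _ => exact ⟨win1 hB, bar1 hB⟩
    | 2, _ => exact ⟨win2 hB, bar2 hB⟩
    | k + 3, ih =>
      obtain ⟨w2, b2⟩ := ih (k + 2) (by omega)
      obtain ⟨w0, b0⟩ := ih k (by omega)
      have w3 := win_step hB k w0 w2 b0 b2
      exact ⟨w3, bar_step hB k w3 b0 b2⟩

/-- the value at the anchors -/
theorem anchor {B : ℤ → ℤ} (hB : Good B) (k : ℕ) :
    B (N (k + 3)) = N k + cond (tp k) 7 (-5) := by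
  have h := (all_scales hB k).1 0 (by norm_num) (by norm_num)
  rw [sub_zero] at h
  rw [h]
  cases tp k
  · have : T false 0 = 5 := by decide +kernel
    rw [this]; rfl
  · have : T true 0 = -7 := by decide +kernel
    rw [this]; rfl

end Pool.Agent.V11301.PC
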